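import Pool.Agent.H41.AL.Defs2

set_option autoImplicit false

/-! Step G5 (`S_CUT2`) of project AG (helper331, for helper41; after `Pool/Agent/H78/AL/Cut.lean`). -/

namespace Pool.Agent.H331.AG

open Finset Pool.Agent.H41.AL

/-- many entries between large sets -/
theorem dev_part {Am ρ η a s t n w : ℝ} (hρ : 0 < ρ) (hη0 : 0 < η)
    (hη3 : 3 * η ≤ ρ ^ 4 / 8) (hn : 0 < n) (hn1 : 2 * Am ≤ ρ ^ 4 / 8 * n)
    (ha : 1 ≤ a) (ha1 : a ≤ Am) (hsn : s ≤ n) (htn : t ≤ n) (hs : ρ * n ≤ s) (ht : ρ * n ≤ t)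
    (w4 : (w - s * t) ^ 2 ≤ t * (2 * a * s * n + 3 * η * s ^ 2 * n)) :
    ρ ^ 2 * n ^ 2 / 2 ≤ w := by
  have hs0 : 0 ≤ s := le_trans (by positivity) hs
  have ht0 : 0 ≤ t := le_trans (by positivity) ht
  have h2 : t * (2 * a * s * n + 3 * η * s ^ 2 * n) ≤ (ρ ^ 2 * n ^ 2 / 2) ^ 2 := by
    have e1 : 2 * a * s * n ≤ 2 * Am * n * n := by
      have := mul_le_mul ha1 hsn hs0 (by linarith)
      nlinarith
    have e2 : s ^ 2 ≤ n ^ 2 := pow_le_pow_left₀ hs0 hsn 2
    have e3 : 3 * η * s ^ 2 * n ≤ ρ ^ 4 / 8 * n ^ 2 * n := by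
      have e4 : 3 * η * s ^ 2 ≤ ρ ^ 4 / 8 * n ^ 2 :=
        mul_le_mul hη3 e2 (sq_nonneg _) (by positivity)
      exact mul_le_mul_of_nonneg_right e4 hn.le
    have e5 : 2 * Am * n * n ≤ ρ ^ 4 / 8 * n * n * n := by
      have := mul_le_mul_of_nonneg_right (mul_le_mul_of_nonneg_right hn1 hn.le) hn.le
      linarith
    have e6 : 2 * a * s * n + 3 * η * s ^ 2 * n ≤ ρ ^ 4 / 4 * n ^ 3 := by
      calc _ ≤ ρ ^ 4 / 8 * n * n * n + ρ ^ 4 / 8 * n ^ 2 * n := by linarith
        _ = _ := by ring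
    have e7 : 0 ≤ 2 * a * s * n + 3 * η * s ^ 2 * n := by positivity
    calc _ ≤ n * (ρ ^ 4 / 4 * n ^ 3) := mul_le_mul htn e6 e7 hn.le
      _ = _ := by ring
  have h3 : |w - s * t| ≤ ρ ^ 2 * n ^ 2 / 2 := abs_le_of_sq_le_sq (w4.trans h2) (by positivity)
  have h4 : ρ * n * (ρ * n) ≤ s * t := mul_le_mul hs ht (by positivity) hs0
  have h5 := (abs_le.1 h3).1
  nlinarith

/-- the real inequality -/
theorem real_part2 {η' Am θ ξ η a s t n w e : ℝ} (h0 : 0 < η') (h1 : η' < 1) (hAm : 1 ≤ Am)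
    (hθ : θ = η' / (2 * Am)) (hξ : ξ = θ ^ 2 / 4) (hη0 : 0 < η) (hη1 : η ≤ η' / 2)
    (hη2 : (2 + Am) * η ≤ ξ * η') (hη3 : 3 * η ≤ θ ^ 4 / 8) (hη4 : Am * η ≤ θ ^ 2 / 4)
    (hn : 0 < n) (hn1 : 2 * Am ≤ θ ^ 4 / 8 * n)
    (ha : 1 ≤ a) (ha1 : a ≤ Am) (hs : 0 ≤ s) (hsn : s ≤ n) (ht : 0 ≤ t) (htn : t ≤ n)
    (hb : n < s + t) (hwe : w ≤ a * (e + η * n ^ 2))
    (w1 : s * ((1 - η) * n) - (n - t) * ((1 + η) * n) ≤ w)
    (w2 : s * ((1 - η) * n - a * (n - t)) ≤ a * e)
    (w3 : t * ((1 - η) * n - a * (n - s)) ≤ a * e)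
    (w4 : (w - s * t) ^ 2 ≤ t * (2 * a * s * n + 3 * η * s ^ 2 * n)) :
    (1 - η') * n * (s + t - n) ≤ a * e := by
  have hθ0 : 0 < θ := by
    rw [hθ]
    positivity
  have hθA : Am * θ = η' / 2 := by
    rw [hθ]
    field_simp
  have haθ : a * θ ≤ η' / 2 := by
    rw [← hθA]
    exact mul_le_mul_of_nonneg_right ha1 hθ0.le
  have hAη : a * (η * n ^ 2) ≤ Am * η * n ^ 2 := by
    have := mul_le_mul_of_nonneg_right ha1 (by positivity : 0 ≤ η * n ^ 2)
    linarith
  rcases le_or_gt (ξ * n) (s + t - n) with c1 | c1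
  · -- case 1
    have h2 : η * (s + (n - t)) ≤ η * (2 * n) := mul_le_mul_of_nonneg_left (by linarith) hη0.le
    have h3 : (2 + Am) * η * n ≤ η' * (s + t - n) := by
      calc (2 + Am) * η * n ≤ ξ * η' * n := mul_le_mul_of_nonneg_right hη2 hn.le
        _ = η' * (ξ * n) := by ring
        _ ≤ _ := mul_le_mul_of_nonneg_left c1 h0.le
    have h4 : n * ((1 - η') * (s + t - n)) ≤
        n * ((s + t - n) - η * (s + (n - t)) - Am * η * n) :=
      mul_le_mul_of_nonneg_left (by linarith) hn.le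
    have h5 : n * ((s + t - n) - η * (s + (n - t)) - Am * η * n) =
        s * ((1 - η) * n) - (n - t) * ((1 + η) * n) - Am * η * n ^ 2 := by ring
    have h6 : a * (e + η * n ^ 2) = a * e + a * (η * n ^ 2) := by ring
    have h7 : (1 - η') * n * (s + t - n) = n * ((1 - η') * (s + t - n)) := by ring
    rw [h7]
    linarith
  rcases le_or_gt (n - t) (θ * n) with c2 | c2
  · -- case 2a
    have h2 : a * (n - t) ≤ η' / 2 * n := by
      calc a * (n - t) ≤ a * (θ * n) := mul_le_mul_of_nonneg_left c2 (by linarith)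
        _ = a * θ * n := by ring
        _ ≤ _ := mul_le_mul_of_nonneg_right haθ hn.le
    have h3 : (1 - η') * n ≤ (1 - η) * n - a * (n - t) := by
      have : η * n ≤ η' / 2 * n := mul_le_mul_of_nonneg_right hη1 hn.le
      linarith
    have h4 : s * ((1 - η') * n) ≤ a * e := (mul_le_mul_of_nonneg_left h3 hs).trans w2
    have h5 : (1 - η') * n * (s + t - n) ≤ (1 - η') * n * s :=
      mul_le_mul_of_nonneg_left (by linarith) (mul_nonneg (by linarith) hn.le)
    linarith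
  rcases le_or_gt t (θ * n) with c3 | c3
  · -- case 2b
    have h2 : a * (n - s) ≤ η' / 2 * n := by
      calc a * (n - s) ≤ a * (θ * n) := mul_le_mul_of_nonneg_left (by linarith) (by linarith)
        _ = a * θ * n := by ring
        _ ≤ _ := mul_le_mul_of_nonneg_right haθ hn.le
    have h3 : (1 - η') * n ≤ (1 - η) * n - a * (n - s) := by
      have : η * n ≤ η' / 2 * n := mul_le_mul_of_nonneg_right hη1 hn.le
      linarith
    have h4 : t * ((1 - η') * n) ≤ a * e := (mul_le_mul_of_nonneg_left h3 ht).trans w3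
    have h5 : (1 - η') * n * (s + t - n) ≤ (1 - η') * n * t :=
      mul_le_mul_of_nonneg_left (by linarith) (mul_nonneg (by linarith) hn.le)
    linarith
  · -- case 2c
    have hs1 : θ * n ≤ s := by linarith
    have h2 := dev_part hθ0 hη0 hη3 hn hn1 ha ha1 hsn htn hs1 c3.le w4
    have h6 : ξ * n * n ≤ a * e := by
      have h7 : Am * η * n ^ 2 ≤ θ ^ 2 / 4 * n ^ 2 :=
        mul_le_mul_of_nonneg_right hη4 (sq_nonneg _)
      have h8 : a * (e + η * n ^ 2) = a * e + a * (η * n ^ 2) := by ring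
      rw [hξ]
      nlinarith
    have h7 : n * (s + t - n) ≤ n * (ξ * n) := mul_le_mul_of_nonneg_left c1.le hn.le
    have h8 : 0 ≤ s + t - n := by linarith
    have h9 : 0 ≤ η' * n * (s + t - n) := by positivity
    nlinarith

/-- the weight between two sets: linear bound and deviation -/
theorem wt {n : ℕ} {W : Mx n} {η a : ℝ} (hη0 : 0 < η) (hη01 : η ≤ 1) (ha1 : 1 ≤ a)
    (hW : Good n η a W) (S T : Finset (Fin n)) :
    (S.card : ℝ) * ((1 - η) * n) - (n - T.card) * ((1 + η) * n) ≤ ∑ j ∈ S, ∑ c ∈ T, W j c ∧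
    (∑ j ∈ S, ∑ c ∈ T, W j c - (S.card : ℝ) * T.card) ^ 2 ≤
      T.card * (2 * a * S.card * n + 3 * η * (S.card : ℝ) ^ 2 * n) := by
  obtain ⟨hW1, hW2, hW3, hW4⟩ := hW
  have ha0 : 0 < a := by linarith
  have hn0 : (0 : ℝ) ≤ n := Nat.cast_nonneg n
  set s : ℝ := (S.card : ℝ) with hs
  set t : ℝ := (T.card : ℝ) with ht
  have hTc : ((Tᶜ.card : ℕ) : ℝ) = n - t := by
    rw [card_compl, Fintype.card_fin, Nat.cast_sub ((card_le_univ T).trans (by rw [Fintype.card_fin]))]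
  set w : ℝ := ∑ j ∈ S, ∑ c ∈ T, W j c with hw
  have hwc : w = ∑ c ∈ T, ∑ j ∈ S, W j c := sum_comm
  have hrow : ∀ j, (1 - η) * n ≤ rowS W j ∧ rowS W j ≤ (1 + η) * n := by
    intro j
    have := abs_le.1 (hW2 j)
    constructor <;> linarith
  have hcol : ∀ c, (1 - η) * n ≤ colS W c ∧ colS W c ≤ (1 + η) * n := by
    intro c
    have := abs_le.1 (hW3 c)
    constructor <;> linarith
  have hsplit : ∀ j, ∑ c ∈ T, W j c = rowS W j - ∑ c ∈ Tᶜ, W j c := by
    intro j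
    unfold rowS
    rw [← sum_add_sum_compl T, add_sub_cancel_right]
  refine ⟨?_, ?_⟩
  · have h2 : w = ∑ j ∈ S, rowS W j - ∑ c ∈ Tᶜ, ∑ j ∈ S, W j c := by
      rw [hw, sum_congr rfl fun j _ => hsplit j, sum_sub_distrib]
      congr 1
      exact sum_comm
    have h3 : s * ((1 - η) * n) ≤ ∑ j ∈ S, rowS W j := by
      calc _ = ∑ _j ∈ S, (1 - η) * n := by rw [sum_const, nsmul_eq_mul]
        _ ≤ _ := sum_le_sum fun j _ => (hrow j).1
    have h4 : ∑ c ∈ Tᶜ, ∑ j ∈ S, W j c ≤ (n - t) * ((1 + η) * n) := by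
      calc _ ≤ ∑ _c ∈ Tᶜ, (1 + η) * (n : ℝ) := by
            refine sum_le_sum fun c _ => le_trans ?_ (hcol c).2
            exact sum_le_sum_of_subset_of_nonneg (subset_univ S) fun j _ _ => (hW1 j c).1
        _ = _ := by rw [sum_const, nsmul_eq_mul, hTc]
    linarith
  · set X : Fin n → ℝ := fun c => ∑ j ∈ S, W j c with hX
    have hX1 : s * ((1 - η) * n) ≤ ∑ c, X c := by
      have h2 : ∑ c, X c = ∑ j ∈ S, rowS W j := sum_comm
      rw [h2]
      calc _ = ∑ _j ∈ S, (1 - η) * n := by rw [sum_const, nsmul_eq_mul]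
        _ ≤ _ := sum_le_sum fun j _ => (hrow j).1
    have hX2 : ∑ c, X c ^ 2 ≤ s * (a * ((1 + η) * n) + s * ((1 + η) * n)) := by
      have h2 : ∑ c, X c ^ 2 = ∑ j ∈ S, ∑ j' ∈ S, cod W j j' := by
        unfold cod
        calc ∑ c, X c ^ 2 = ∑ c, ∑ j ∈ S, ∑ j' ∈ S, W j c * W j' c :=
              sum_congr rfl fun c _ => by rw [hX, sq, sum_mul_sum]
          _ = ∑ j ∈ S, ∑ c, ∑ j' ∈ S, W j c * W j' c := sum_comm
          _ = _ := sum_congr rfl fun j _ => sum_comm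
      rw [h2]
      have h3 : ∀ j ∈ S, ∑ j' ∈ S, cod W j j' ≤ a * ((1 + η) * n) + s * ((1 + η) * n) := by
        intro j hj
        have h4 : ∀ j' ∈ S, cod W j j' ≤ (if j' = j then a * ((1 + η) * n) else 0)
            + (1 + η) * n := by
          intro j' _
          split_ifs with h
          · subst h
            have h5 : cod W j' j' ≤ a * rowS W j' := by
              unfold cod rowS
              rw [mul_sum]
              exact sum_le_sum fun c _ =>
                mul_le_mul_of_nonneg_right (hW1 j' c).2 (hW1 j' c).1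
            have h6 : a * rowS W j' ≤ a * ((1 + η) * n) :=
              mul_le_mul_of_nonneg_left (hrow j').2 ha0.le
            have h7 : 0 ≤ (1 + η) * (n : ℝ) := by positivity
            linarith
          · rw [zero_add]
            exact hW4 j j' (Ne.symm h)
        refine (sum_le_sum h4).trans (le_of_eq ?_)
        rw [sum_add_distrib, sum_ite_eq' S j, if_pos hj, sum_const, nsmul_eq_mul]
      calc _ ≤ ∑ _j ∈ S, (a * ((1 + η) * n) + s * ((1 + η) * n)) := sum_le_sum h3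
        _ = _ := by rw [sum_const, nsmul_eq_mul]
    have h2 : ∑ c, (X c - s) ^ 2 ≤ 2 * a * s * n + 3 * η * s ^ 2 * n := by
      have h3 : ∑ c, (X c - s) ^ 2 = ∑ c, X c ^ 2 - 2 * s * ∑ c, X c + n * s ^ 2 := by
        calc _ = ∑ c, (X c ^ 2 - 2 * s * X c + s ^ 2) := sum_congr rfl fun c _ => by ring
          _ = _ := by
            rw [sum_add_distrib, sum_sub_distrib, ← mul_sum, sum_const, card_univ,
              Fintype.card_fin, nsmul_eq_mul]
      rw [h3]
      have hs0 : 0 ≤ s := Nat.cast_nonneg _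
      have h4 : 2 * s * (s * ((1 - η) * n)) ≤ 2 * s * ∑ c, X c :=
        mul_le_mul_of_nonneg_left hX1 (by positivity)
      have h5 : s * (a * ((1 + η) * n)) ≤ 2 * a * s * n := by
        have h6 : (1 + η) * (s * a * n) ≤ 2 * (s * a * n) :=
          mul_le_mul_of_nonneg_right (by linarith) (by positivity)
        linarith
      nlinarith
    have h3 : w - s * t = ∑ c ∈ T, (X c - s) := by
      rw [sum_sub_distrib, sum_const, nsmul_eq_mul, hwc]
      ring
    rw [h3]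
    refine (sq_sum_le_card_mul_sum_sq).trans ?_
    refine mul_le_mul_of_nonneg_left ?_ (Nat.cast_nonneg _)
    exact (sum_le_sum_of_subset_of_nonneg (subset_univ T) fun c _ _ => sq_nonneg _).trans h2

open Classical in
theorem nc {n : ℕ} (S T : Finset (Fin n)) (B : Fin n → Fin n → Prop) :
    {p : Fin n × Fin n | p.1 ∈ S ∧ p.2 ∈ T ∧ B p.1 p.2}.ncard =
      ((S ×ˢ T).filter fun p => B p.1 p.2).card := by
  rw [← Set.ncard_coe_finset]
  congr 1
  ext p
  simp only [Set.mem_setOf_eq, coe_filter, mem_product]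
  exact ⟨fun h => ⟨⟨h.1, h.2.1⟩, h.2.2⟩, fun h => ⟨h.1.1, h.1.2, h.2⟩⟩

/-- the weight is bounded by the number of cells -/
theorem wt_le {n : ℕ} {W : Mx n} {η a : ℝ} (ha1 : 1 ≤ a)
    (hW : Good n η a W) (S T : Finset (Fin n)) (B : Fin n → Fin n → Prop)
    (hB : ({p : Fin n × Fin n | W p.1 p.2 ≠ 0 ∧ ¬ B p.1 p.2}.ncard : ℝ) ≤ η * (n : ℝ) ^ 2) :
    ∑ j ∈ S, ∑ c ∈ T, W j c ≤
      a * (({p : Fin n × Fin n | p.1 ∈ S ∧ p.2 ∈ T ∧ B p.1 p.2}.ncard : ℝ) + η * n ^ 2) := by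
  classical
  obtain ⟨hW1, -, -, -⟩ := hW
  have ha0 : 0 ≤ a := by linarith
  set E : Finset (Fin n × Fin n) := (S ×ˢ T).filter fun p => W p.1 p.2 ≠ 0 with hE
  have hwE : ∑ j ∈ S, ∑ c ∈ T, W j c ≤ a * E.card := by
    have h2 : ∑ j ∈ S, ∑ c ∈ T, W j c = ∑ p ∈ E, W p.1 p.2 := by
      rw [← sum_product', hE, sum_filter]
      refine sum_congr rfl fun p _ => ?_
      split_ifs with h
      · rfl
      · exact not_not.1 h
    rw [h2]
    calc _ ≤ ∑ _p ∈ E, a := sum_le_sum fun p _ => (hW1 p.1 p.2).2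
      _ = a * E.card := by rw [sum_const, nsmul_eq_mul, mul_comm]
  refine hwE.trans (mul_le_mul_of_nonneg_left ?_ ha0)
  have h3 : E ⊆ ((S ×ˢ T).filter fun p => B p.1 p.2) ∪
      (univ.filter fun p : Fin n × Fin n => W p.1 p.2 ≠ 0 ∧ ¬ B p.1 p.2) := by
    intro p hp
    rw [hE, mem_filter] at hp
    rw [mem_union, mem_filter, mem_filter]
    by_cases h : B p.1 p.2
    · exact Or.inl ⟨hp.1, h⟩
    · exact Or.inr ⟨mem_univ _, hp.2, h⟩
  have h4 : (E.card : ℝ) ≤ (((S ×ˢ T).filter fun p => B p.1 p.2).card : ℝ) +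
      ((univ.filter fun p : Fin n × Fin n => W p.1 p.2 ≠ 0 ∧ ¬ B p.1 p.2).card : ℝ) := by
    exact_mod_cast (card_le_card h3).trans (card_union_le _ _)
  have h5 : {p : Fin n × Fin n | W p.1 p.2 ≠ 0 ∧ ¬ B p.1 p.2}.ncard =
      (univ.filter fun p : Fin n × Fin n => W p.1 p.2 ≠ 0 ∧ ¬ B p.1 p.2).card := by
    rw [← Set.ncard_coe_finset]
    congr 1
    ext p
    simp only [Set.mem_setOf_eq, coe_filter, mem_univ, true_and]
  rw [nc S T B]
  rw [h5] at hB
  linarith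

/-- rows -/
theorem rows_le {n : ℕ} {x : ℝ} (S T : Finset (Fin n)) (B : Fin n → Fin n → Prop)
    (hB : ∀ j, x ≤ ({c | B j c}.ncard : ℝ)) :
    (S.card : ℝ) * (x - (n - T.card)) ≤
      ({p : Fin n × Fin n | p.1 ∈ S ∧ p.2 ∈ T ∧ B p.1 p.2}.ncard : ℝ) := by
  classical
  rw [nc S T B]
  have h1 : ((S ×ˢ T).filter fun p => B p.1 p.2).card = ∑ j ∈ S, (T.filter fun c => B j c).card := by
    rw [card_filter, sum_product]
    exact sum_congr rfl fun j _ => (card_filter _ _).symm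
  rw [h1]
  push_cast
  have h2 : (S.card : ℝ) * (x - (n - T.card)) = ∑ _j ∈ S, (x - (n - T.card)) := by
    rw [sum_const, nsmul_eq_mul]
  rw [h2]
  refine sum_le_sum fun j _ => ?_
  have h3 : {c | B j c}.ncard ≤ (T.filter fun c => B j c).card + Tᶜ.card := by
    have h4 : {c | B j c}.ncard = (univ.filter fun c => B j c).card := by
      rw [← Set.ncard_coe_finset]
      congr 1
      ext c
      simp only [Set.mem_setOf_eq, coe_filter, mem_univ, true_and]
    rw [h4]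
    refine (card_le_card ?_).trans (card_union_le _ _)
    intro c hc
    rw [mem_filter] at hc
    rw [mem_union, mem_filter, mem_compl]
    by_cases h : c ∈ T
    · exact Or.inl ⟨h, hc.2⟩
    · exact Or.inr h
  have hTc : ((Tᶜ.card : ℕ) : ℝ) = n - T.card := by
    rw [card_compl, Fintype.card_fin, Nat.cast_sub ((card_le_univ T).trans (by rw [Fintype.card_fin]))]
  have h5 : ({c | B j c}.ncard : ℝ) ≤ ((T.filter fun c => B j c).card : ℝ) + ((Tᶜ.card : ℕ) : ℝ) := by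
    exact_mod_cast h3
  rw [hTc] at h5
  have h6 := hB j
  linarith

/-- columns -/
theorem cols_le {n : ℕ} {x : ℝ} (S T : Finset (Fin n)) (B : Fin n → Fin n → Prop)
    (hB : ∀ c, x ≤ ({j | B j c}.ncard : ℝ)) :
    (T.card : ℝ) * (x - (n - S.card)) ≤
      ({p : Fin n × Fin n | p.1 ∈ S ∧ p.2 ∈ T ∧ B p.1 p.2}.ncard : ℝ) := by
  classical
  have h1 := rows_le T S (fun c j => B j c) hB
  have h2 : {p : Fin n × Fin n | p.1 ∈ T ∧ p.2 ∈ S ∧ B p.2 p.1}.ncard =
      {p : Fin n × Fin n | p.1 ∈ S ∧ p.2 ∈ T ∧ B p.1 p.2}.ncard := by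
    have h3 : {p : Fin n × Fin n | p.1 ∈ T ∧ p.2 ∈ S ∧ B p.2 p.1} =
        Prod.swap '' {p : Fin n × Fin n | p.1 ∈ S ∧ p.2 ∈ T ∧ B p.1 p.2} := by
      ext p
      simp only [Set.mem_setOf_eq, Set.mem_image]
      constructor
      · rintro ⟨h4, h5, h6⟩
        exact ⟨(p.2, p.1), ⟨h5, h4, h6⟩, rfl⟩
      · rintro ⟨q, ⟨h4, h5, h6⟩, rfl⟩
        exact ⟨h5, h4, h6⟩
    rw [h3, Set.ncard_image_of_injective _ Prod.swap_injective]
  rw [h2] at h1
  exact h1

theorem cut2 : S_CUT2 := by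
  intro η' Am h0 h1 hAm
  set θ : ℝ := η' / (2 * Am) with hθ
  have hθ0 : 0 < θ := by positivity
  set ξ : ℝ := θ ^ 2 / 4 with hξ
  have hξ0 : 0 < ξ := by positivity
  set β : ℝ := 1 / (8 * Am) with hβ
  have hβ0 : 0 < β := by positivity
  obtain ⟨η, hη0, hη1, hη2, hη3, hη4, hη5, hη6, hη7⟩ : ∃ η : ℝ, 0 < η ∧ η ≤ 1 / 2 ∧ η ≤ η' / 2 ∧
      η ≤ ξ * η' / (2 + Am) ∧ η ≤ θ ^ 4 / 24 ∧ η ≤ θ ^ 2 / (4 * Am) ∧ η ≤ β ^ 4 / 24 ∧
      η ≤ β ^ 2 / (4 * Am) := by
    refine ⟨min (1 / 2) (min (η' / 2) (min (ξ * η' / (2 + Am)) (min (θ ^ 4 / 24)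
      (min (θ ^ 2 / (4 * Am)) (min (β ^ 4 / 24) (β ^ 2 / (4 * Am))))))), by positivity,
      min_le_left _ _, ?_, ?_, ?_, ?_, ?_, ?_⟩
    · exact (min_le_right _ _).trans (min_le_left _ _)
    · exact (min_le_right _ _).trans ((min_le_right _ _).trans (min_le_left _ _))
    · exact (min_le_right _ _).trans ((min_le_right _ _).trans ((min_le_right _ _).trans
        (min_le_left _ _)))
    · exact (min_le_right _ _).trans ((min_le_right _ _).trans ((min_le_right _ _).trans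
        ((min_le_right _ _).trans (min_le_left _ _))))
    · exact (min_le_right _ _).trans ((min_le_right _ _).trans ((min_le_right _ _).trans
        ((min_le_right _ _).trans ((min_le_right _ _).trans (min_le_left _ _)))))
    · exact (min_le_right _ _).trans ((min_le_right _ _).trans ((min_le_right _ _).trans
        ((min_le_right _ _).trans ((min_le_right _ _).trans (min_le_right _ _)))))
  have hη3' : (2 + Am) * η ≤ ξ * η' := by
    rw [le_div_iff₀ (by positivity)] at hη3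
    linarith
  have hη5' : Am * η ≤ θ ^ 2 / 4 := by
    rw [le_div_iff₀ (by positivity)] at hη5
    linarith
  refine ⟨η, β, β ^ 2 / (4 * Am), hη0, hη1, hβ0, le_rfl, by positivity,
    ⌈16 * Am / θ ^ 4⌉₊ + ⌈16 * Am / β ^ 4⌉₊ + 1, ?_⟩
  intro n hn W a ha1 haA hW B hB hBr hBc
  have ha0 : 0 < a := by linarith
  have hn0 : (0 : ℝ) < n := by
    have : 0 < n := by omega
    exact_mod_cast this
  have hn1 : 2 * Am ≤ θ ^ 4 / 8 * n := by
    have h2 : 16 * Am / θ ^ 4 ≤ n := by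
      refine (Nat.le_ceil _).trans ?_
      exact_mod_cast (by omega : ⌈16 * Am / θ ^ 4⌉₊ ≤ n)
    rw [div_le_iff₀ (by positivity)] at h2
    linarith
  have hn2 : 2 * Am ≤ β ^ 4 / 8 * n := by
    have h2 : 16 * Am / β ^ 4 ≤ n := by
      refine (Nat.le_ceil _).trans ?_
      exact_mod_cast (by omega : ⌈16 * Am / β ^ 4⌉₊ ≤ n)
    rw [div_le_iff₀ (by positivity)] at h2
    linarith
  have hcard : ∀ S : Finset (Fin n), (S.card : ℝ) ≤ n := by
    intro S
    exact_mod_cast (card_le_univ S).trans (by rw [Fintype.card_fin])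
  refine ⟨?_, ?_⟩
  · intro L hL S T
    obtain ⟨w1, w4⟩ := wt hη0 (by linarith) ha1 hW S T
    have hwe := wt_le ha1 hW S T B hB
    have r1 := rows_le S T B hBr
    have r2 := cols_le S T B hBc
    set e : ℝ := ({p : Fin n × Fin n | p.1 ∈ S ∧ p.2 ∈ T ∧ B p.1 p.2}.ncard : ℝ) with he
    set w : ℝ := ∑ j ∈ S, ∑ c ∈ T, W j c with hw
    set s : ℝ := (S.card : ℝ) with hs
    set t : ℝ := (T.card : ℝ) with ht
    have hgoal : (L : ℝ) * (s + t) ≤ e + L * n := by
      rcases le_or_gt (s + t) n with hst | hst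
      · have h2 : (L : ℝ) * (s + t) ≤ L * n := mul_le_mul_of_nonneg_left hst (Nat.cast_nonneg _)
        have h3 : (0 : ℝ) ≤ e := Nat.cast_nonneg _
        linarith
      have w2 : s * ((1 - η) * n - a * (n - t)) ≤ a * e := by
        have h2 := mul_le_mul_of_nonneg_left r1 ha0.le
        have h3 : a * (s * ((1 - η) * n / a - (n - t))) = s * ((1 - η) * n - a * (n - t)) := by
          field_simp
        rw [h3] at h2
        exact h2
      have w3 : t * ((1 - η) * n - a * (n - s)) ≤ a * e := by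
        have h2 := mul_le_mul_of_nonneg_left r2 ha0.le
        have h3 : a * (t * ((1 - η) * n / a - (n - s))) = t * ((1 - η) * n - a * (n - s)) := by
          field_simp
        rw [h3] at h2
        exact h2
      have h2 := real_part2 h0 h1 hAm hθ hξ hη0 hη2 hη3' (by linarith) hη5' hn0 hn1 ha1 haA
        (Nat.cast_nonneg _) (hcard S) (Nat.cast_nonneg _) (hcard T) hst hwe w1 w2 w3 w4
      have h3 : a * L ≤ (1 - η') * n := by
        rw [le_div_iff₀ ha0] at hL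
        linarith
      have h4 : a * L * (s + t - n) ≤ (1 - η') * n * (s + t - n) :=
        mul_le_mul_of_nonneg_right h3 (by linarith)
      have h5 : a * (L * (s + t - n)) ≤ a * e := by linarith
      have h6 := le_of_mul_le_mul_left h5 ha0
      linarith
    have h2 : ((L * (S.card + T.card) : ℕ) : ℝ) ≤
        (({p : Fin n × Fin n | p.1 ∈ S ∧ p.2 ∈ T ∧ B p.1 p.2}.ncard + L * n : ℕ) : ℝ) := by
      push_cast
      exact hgoal
    exact_mod_cast h2
  · intro S T hS hT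
    obtain ⟨w1, w4⟩ := wt hη0 (by linarith) ha1 hW S T
    have hwe := wt_le ha1 hW S T B hB
    have h2 := dev_part hβ0 hη0 (by linarith) hn0 hn2 ha1 haA (hcard S) (hcard T) hS hT w4
    set e : ℝ := ({p : Fin n × Fin n | p.1 ∈ S ∧ p.2 ∈ T ∧ B p.1 p.2}.ncard : ℝ) with he
    have he0 : 0 ≤ e := Nat.cast_nonneg _
    have h3 : a * (e + η * (n : ℝ) ^ 2) ≤ Am * (e + η * (n : ℝ) ^ 2) :=
      mul_le_mul_of_nonneg_right haA (by positivity)
    have h4 : η * (n : ℝ) ^ 2 ≤ β ^ 2 / (4 * Am) * (n : ℝ) ^ 2 :=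
      mul_le_mul_of_nonneg_right hη7 (sq_nonneg _)
    have h5 : β ^ 2 * (n : ℝ) ^ 2 / 2 ≤ Am * (e + η * (n : ℝ) ^ 2) := h2.trans (hwe.trans h3)
    have h6 : β ^ 2 * (n : ℝ) ^ 2 / (2 * Am) ≤ e + η * (n : ℝ) ^ 2 := by
      rw [div_le_iff₀ (by positivity)]
      linarith
    have h7 : β ^ 2 * (n : ℝ) ^ 2 / (2 * Am) = 2 * (β ^ 2 / (4 * Am) * (n : ℝ) ^ 2) := by
      field_simp
      norm_num
    rw [h7] at h6
    linarith

end Pool.Agent.H331.AG
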